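import Pool.Agent.WAQ.StmtsL
import Pool.Agent.WAQ.Alg

set_option autoImplicit false

namespace Pool.Agent.WAQ.H42

open Classical WeierstrassCurve.Affine
open Pool.Agent.WAQ.G

variable [Par]

/-- unramified twists: a point whose double is in the kernel of reduction is near a 2-torsion point -/
theorem t2g (cri : CriStmt) : T2gStmt := by
  intro F _ ϖ hF d hd1 P hP2
  have := hF.gd
  have h2 := hF.two_ne
  have hn2 := hF.norm_two
  have hd : d ≠ 0 := by
    intro h0
    rw [h0, norm_zero] at hd1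
    exact zero_ne_one hd1
  by_cases hB : Big 1 P
  · exact ⟨0, Or.inl rfl, by rw [sub_zero]; exact hB⟩
  have hP0 : P ≠ 0 := fun h => hB (Or.inl h)
  have hx1 : ‖xn P‖ ≤ 1 := by
    by_contra hcon
    exact hB (Or.inr (not_le.1 hcon))
  have hI := isP_self hd hP0
  generalize xn P = x at hx1 hI
  generalize yn P = y at hI
  have heq := hI.eqn hd
  have hea := hF.norm_ea
  have heb := hF.norm_eb
  have hult : ∀ u v : F, ‖u‖ ≤ 1 → ‖v‖ ≤ 1 → ‖u - v‖ ≤ 1 := by
    intro u v hu hv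
    rw [sub_eq_add_neg]
    exact (hF.ultra u (-v)).trans (max_le hu (by rw [norm_neg]; exact hv))
  -- the conclusion from a near root
  have key : ∀ e : F, cub e = 0 → IsT (tor d e) → ‖e‖ ≤ 1 → ‖x - e‖ < 1 → ‖cub x‖ < 1 →
      ∃ T : Pt d, IsT T ∧ Big 1 (P - T) := by
    intro e he hT hne hxe hc
    refine ⟨tor d e, hT, ?_⟩
    obtain ⟨hs1, e1⟩ := hI
    obtain ⟨hs2, e2⟩ := isP_tor h2 hd he
    rw [e1, e2]
    refine (cri F ϖ hF d hd1 _ _ _ _ hs1 hs2 ?_ ?_).2 ⟨?_, ?_⟩
    · rw [norm_mul, hd1, one_mul]; exact hx1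
    · rw [norm_mul, hd1, one_mul]; exact hne
    · rw [← mul_sub, norm_mul, hd1, one_mul]; exact hxe
    · rw [mul_zero, sub_zero, norm_mul, norm_pow, hd1, one_pow, one_mul]
      have h3 : ‖y‖ ^ 2 < 1 := by
        have h4 : ‖d * y ^ 2‖ < 1 := by rw [heq]; exact hc
        rwa [norm_mul, hd1, one_mul, norm_pow] at h4
      by_contra hcon
      have h5 := one_le_pow₀ (n := 2) (not_lt.1 hcon)
      exact absurd h3 (not_lt.2 h5)
  have k0 : IsT (tor d 0) := Or.inr (Or.inl rfl)
  have ka : IsT (tor d (ea F)) := Or.inr (Or.inr (Or.inl rfl))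
  have kb : IsT (tor d (eb F)) := Or.inr (Or.inr (Or.inr rfl))
  have hc : ‖cub x‖ < 1 := by
    by_cases hy : y = 0
    · rw [← heq, hy]
      simp
    · have hD := hI.dbl h2 hd hy
      rw [two_sm] at hP2
      have hne : P + P ≠ 0 := hD.ne_zero
      have hbig : 1 < ‖xn (P + P)‖ := by
        rcases hP2 with h | h
        · exact absurd h hne
        · exact h
      rw [hD.xn_eq hd, norm_div, norm_mul, norm_pow] at hbig
      have h4 : ‖(4 : F)‖ = 1 := by
        have : (4 : F) = 2 * 2 := by norm_num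
        rw [this, norm_mul, hn2, one_mul]
      rw [h4, one_mul] at hbig
      have hcub : cub x ≠ 0 := by
        rw [← heq]
        exact mul_ne_zero hd (pow_ne_zero 2 hy)
      have hpos : 0 < ‖cub x‖ := norm_pos_iff.2 hcub
      rw [one_lt_div hpos] at hbig
      have h5 : ‖x ^ 2 - ea F * eb F‖ ≤ 1 := by
        apply hult
        · rw [norm_pow]
          exact pow_le_one₀ (norm_nonneg _) hx1
        · rw [norm_mul, hea, heb, one_mul]
      exact lt_of_lt_of_le hbig (pow_le_one₀ (norm_nonneg _) h5)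
  have hprod : ‖x‖ * ‖x - ea F‖ * ‖x - eb F‖ < 1 := by
    have h := hc
    unfold cub at h
    rwa [norm_mul, norm_mul] at h
  rcases lt_or_ge ‖x - 0‖ 1 with h0 | h0
  · exact key 0 cub_zero k0 (by simp) h0 hc
  rcases lt_or_ge ‖x - ea F‖ 1 with h1 | h1
  · exact key _ cub_ea ka hea.le h1 hc
  rcases lt_or_ge ‖x - eb F‖ 1 with h3 | h3
  · exact key _ cub_eb kb heb.le h3 hc
  exfalso
  rw [sub_zero] at h0
  have h6 : 1 ≤ ‖x‖ * ‖x - ea F‖ * ‖x - eb F‖ :=
    one_le_mul_of_one_le_of_one_le (one_le_mul_of_one_le_of_one_le h0 h1) h3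
  exact absurd hprod (not_lt.2 h6)

end Pool.Agent.WAQ.H42
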